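import Pool.Agent.H5.Asq

set_option autoImplicit false

open Filter Topology

namespace Pool.Agent.Results.MP_a7d15e_an.Example

open Pool.Agent.H5 Pool.Agent.H5.Asq

/-- the slice of the closed unit ball given by `f` and `α` -/
def slice {X : Type} [NormedAddCommGroup X] [NormedSpace ℝ X] (f : StrongDual ℝ X) (α : ℝ) :
    Set X := {x | ‖x‖ ≤ 1 ∧ 1 - α < f x}

/-- the symmetric strong diameter two property -/
def SSD2P (X : Type) [NormedAddCommGroup X] [NormedSpace ℝ X] : Prop :=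
  ∀ (n : ℕ) (f : Fin n → StrongDual ℝ X) (α : Fin n → ℝ), (∀ i, ‖f i‖ = 1) → (∀ i, 0 < α i) →
    ∀ ε : ℝ, 0 < ε → ∃ (x : Fin n → X) (y : X), ‖y‖ ≤ 1 ∧ 1 - ε < ‖y‖ ∧
      ∀ i, x i ∈ slice (f i) (α i) ∧ x i + y ∈ slice (f i) (α i) ∧ x i - y ∈ slice (f i) (α i)

lemma u_norm (k : ℕ) : ‖u k‖ ≤ 1 := norm_le_of _ zero_le_one fun j => by
  show |if j = k then (1 : ℝ) else 0| ≤ 1
  split_ifs <;> simp

lemma has {X : Type} [NormedAddCommGroup X] [NormedSpace ℝ X] (e : V ≃L[ℝ] X)
    (he : ∀ v, ‖e v‖ = N v) : SSD2P X := by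
  intro n f α hf hα ε hε
  have h1 : ∀ i, ∃ x : X, ‖x‖ < 1 ∧ 1 - α i < f i x := fun i => by
    obtain ⟨y, hy, hgy⟩ := (f i).exists_lt_apply_of_lt_opNorm (r := 1 - α i)
      (by linarith [hf i, hα i])
    rcases abs_cases (f i y) with h | h
    · exact ⟨y, hy, by rw [Real.norm_eq_abs, h.1] at hgy; exact hgy⟩
    · exact ⟨-y, by rwa [norm_neg], by
        rw [Real.norm_eq_abs, h.1] at hgy; rw [map_neg]; exact hgy⟩
  choose x hx1 hx2 using h1
  obtain ⟨c, hc0, hc1, hc2⟩ : ∃ c : ℝ, 0 ≤ c ∧ c < 1 ∧ 1 - ε < c :=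
    ⟨max 0 (1 - ε / 2), le_max_left _ _, max_lt one_pos (by linarith),
      lt_max_of_lt_right (by linarith)⟩
  have h2 : ∀ i, ∀ᶠ k in atTop, ∀ s : ℝ, |s| = c → x i + e (0, s • u (k + 1)) ∈
      slice (f i) (α i) := fun i => by
    have h3 := ((c0_lim (e.symm (x i)).2).add (ρ_lim (e.symm (x i)).1)).comp
      (tendsto_add_atTop_nat 1)
    rw [add_zero] at h3
    filter_upwards [h3.eventually (gt_mem_nhds (sub_pos.2 hc1)),
      tail (((f i).comp e.toContinuousLinearMap).comp (ContinuousLinearMap.inr ℝ l1 c0))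
        (sub_pos.2 (hx2 i))] with k h4 h5 s hs
    constructor
    · have h6 : x i + e (0, s • u (k + 1)) = e (e.symm (x i) + (0, s • u (k + 1))) := by simp
      have h7 : N (e.symm (x i)) < 1 := by rw [← he, e.apply_symm_apply]; exact hx1 i
      rw [h6, he]
      refine N_le (by simpa using (fst_le _).trans h7.le) fun j => ?_
      have h8 : (e.symm (x i) + (0, s • u (k + 1))).1 = (e.symm (x i)).1 := add_zero _
      have h9 : (e.symm (x i) + (0, s • u (k + 1))).2 j =
        (e.symm (x i)).2 j + s * if j = k + 1 then 1 else 0 := rfl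
      rw [h8, h9]
      split_ifs with h10
      · subst h10
        have := abs_add_le ((e.symm (x i)).2 (k + 1)) s
        simp only [Function.comp] at h4
        rw [mul_one]
        linarith
      · rw [mul_zero, add_zero]
        exact (le_N _ j).trans h7.le
    · have h6 := h5 (s • u (k + 1)) fun j hj => by
        show s * (if j = k + 1 then (1 : ℝ) else 0) = 0
        rw [if_neg (by omega), mul_zero]
      have h7 : ‖s • u (k + 1)‖ < 1 := by
        rw [norm_smul, Real.norm_eq_abs, hs]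
        nlinarith [u_norm (k + 1), norm_nonneg (u (k + 1))]
      have h8 := mul_lt_mul_of_pos_left h7 (sub_pos.2 (hx2 i))
      have h9 : -(f i (e (0, s • u (k + 1)))) ≤ _ := (neg_le_abs _).trans h6
      rw [map_add]
      linarith
  obtain ⟨k, hk⟩ := (eventually_all.2 h2).exists
  have h3 : N (0, c • u (k + 1)) ≤ 1 := N_le (by simp) fun j => by
    have h4 := abs_le_norm (c • u (k + 1)) j
    have h5 := ρ_le j (0 : l1)
    rw [norm_smul, Real.norm_of_nonneg hc0] at h4
    rw [norm_zero] at h5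
    nlinarith [u_norm (k + 1), norm_nonneg (u (k + 1))]
  have h4 : c ≤ N (0, c • u (k + 1)) := by
    have h5 := le_N (0, c • u (k + 1)) (k + 1)
    have h6 : (c • u (k + 1)) (k + 1) = c * if k + 1 = k + 1 then 1 else 0 := rfl
    simp only [h6, if_true, mul_one, abs_of_nonneg hc0] at h5
    linarith [ρ_nonneg (k + 1) (0 : l1)]
  refine ⟨x, e (0, c • u (k + 1)), by rwa [he], by rw [he]; linarith, fun i =>
    ⟨⟨(hx1 i).le, hx2 i⟩, hk i c (abs_of_nonneg hc0), ?_⟩⟩
  have h5 := hk i (-c) (by rw [abs_neg, abs_of_nonneg hc0])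
  have h6 : e (0, (-c) • u (k + 1)) = -e (0, c • u (k + 1)) := by
    rw [← map_neg, Prod.neg_mk, neg_zero]
    exact congrArg (fun t => e (0, t)) (neg_smul c (u (k + 1)))
  rwa [h6, ← sub_eq_add_neg] at h5

lemma fails {X : Type} [NormedAddCommGroup X] [NormedSpace ℝ X] (e : V ≃L[ℝ] X)
    (he : ∀ v, ‖e v‖ = N v) : ¬ SSD2P (StrongDual ℝ (StrongDual ℝ X)) := by
  classical
  intro hS
  have hN : ∀ z, N (e.symm z) = ‖z‖ := fun z => by rw [← he, e.apply_symm_apply]
  have hΛ : ∀ A : Set ℕ, ∃ g : StrongDual ℝ X, ∀ z,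
      HasSum (fun n => (if n ∈ A then 1 else 0) * (e.symm z).1 n) (g z) := fun A => by
    obtain ⟨g, hg⟩ := mk_fun (fun n => if n ∈ A then 1 else 0) fun n => by split_ifs <;> simp
    exact ⟨(g.comp (ContinuousLinearMap.fst ℝ l1 c0)).comp e.symm.toContinuousLinearMap,
      fun z => hg _⟩
  choose F hF using hΛ
  have bd : ∀ (g : StrongDual ℝ X) (c : ℕ → ℝ) (C : ℝ), 0 ≤ C → (∀ n, |c n| ≤ C) →
      (∀ z, HasSum (fun n => c n * (e.symm z).1 n) (g z)) → ‖g‖ ≤ C := fun g c C h0 h1 h2 =>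
    g.opNorm_le_bound h0 fun z => (sum_le (h2 z) h1).trans
      (mul_le_mul_of_nonneg_left ((fst_le _).trans_eq (hN z)) h0)
  have hF1 : ∀ A, ‖F A‖ ≤ 1 := fun A =>
    bd _ _ 1 zero_le_one (fun n => by split_ifs <;> simp) (hF A)
  let U : Filter ℕ := hyperfilter ℕ
  haveI : (U.smallSets ⊓ 𝓟 {s | s ∈ U}).NeBot :=
    frequently_iff_neBot.1 (frequently_smallSets_mem U)
  let 𝒱 := Ultrafilter.of (U.smallSets ⊓ 𝓟 {s | s ∈ U})
  have h𝒱 : (𝒱 : Filter (Set ℕ)) ≤ U.smallSets ⊓ 𝓟 {s | s ∈ U} := Ultrafilter.of_le _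
  obtain ⟨φ, hφ1, hφ3⟩ := ulim2 (StrongDual ℝ X) 𝒱 F hF1
  have hφ : ‖φ‖ = 1 := by
    obtain ⟨G, hG1, hG2⟩ := ulim2 X (hyperfilter ℕ) (fun n => e (lp.single 1 n 1, 0)) fun n => by
        have h1 : ‖(lp.single 1 n (1 : ℝ) : l1)‖ = 1 := by
          rw [lp.norm_single (by norm_num)]; simp
        rw [he]
        exact N_le h1.le fun k => by simpa using (ρ_le k _).trans h1.le
    have h1 : ∀ A ∈ U, G (F A) = 1 := fun A hA => by
      refine tendsto_nhds_unique (hG2 (F A)) (tendsto_const_nhds.congr' ?_)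
      filter_upwards [hA] with n hn
      have h2 := hF A (e (lp.single 1 n 1, 0))
      rw [e.symm_apply_apply] at h2
      refine (h2.unique ?_).symm
      have h3 := hasSum_single (f := fun m => (if m ∈ A then (1 : ℝ) else 0) *
        (lp.single 1 n (1 : ℝ) : l1) m) n fun m hm => by rw [lp.single_apply_ne _ _ _ hm, mul_zero]
      rwa [if_pos hn, lp.single_apply_self, mul_one] at h3
    have h2 : φ G = 1 := tendsto_nhds_unique (hφ3 G) (tendsto_const_nhds.congr' (by
      filter_upwards [h𝒱 (mem_inf_of_right (mem_principal_self _))] with A hA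
      exact (h1 A hA).symm))
    have h3 := φ.le_opNorm G
    rw [h2, norm_one] at h3
    exact le_antisymm hφ1 (by nlinarith [norm_nonneg φ])
  obtain ⟨x, H, -, hH, hx⟩ := hS 1 (fun _ => φ) (fun _ => 1 / 10) (fun _ => hφ)
    (fun _ => by norm_num) (1 / 4) (by norm_num)
  obtain ⟨-, ⟨hp1, hp2⟩, hm1, hm2⟩ := hx 0
  obtain ⟨f, hf, hHf⟩ := H.exists_lt_apply_of_lt_opNorm hH
  let g := (f.comp e.toContinuousLinearMap).comp (ContinuousLinearMap.inl ℝ l1 c0)
  let s := (f.comp e.toContinuousLinearMap).comp (ContinuousLinearMap.inr ℝ l1 c0)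
  let a : ℕ → ℝ := fun n => g (lp.single 1 n 1)
  have hfe : ∀ v, |f (e v)| ≤ N v := fun v => (f.le_opNorm _).trans (by
    rw [he]; exact mul_le_of_le_one_left ((norm_nonneg _).trans (fst_le v)) hf.le)
  have ha : ∀ n, |a n| ≤ 1 := fun n => by
    have h1 : ‖(lp.single 1 n (1 : ℝ) : l1)‖ = 1 := by rw [lp.norm_single (by norm_num)]; simp
    exact (hfe (lp.single 1 n 1, 0)).trans
      (N_le h1.le fun k => by simpa using (ρ_le k _).trans h1.le)
  obtain ⟨l, hl, hal⟩ := isCompact_Icc.ultrafilter_le_nhds ((hyperfilter ℕ).map a)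
    (show _ ≤ 𝓟 (Set.Icc (-1 : ℝ) 1) from
      le_principal_iff.2 (mem_map.2 (univ_mem' fun n => abs_le.1 (ha n))))
  obtain ⟨K, hK⟩ := (tail s (show (0 : ℝ) < 1 / 20 by norm_num)).exists
  have hB : {n | K < n ∧ |a n - l| < 1 / 20} ∈ U :=
    inter_mem (Nat.hyperfilter_le_atTop (eventually_gt_atTop K))
      (Metric.tendsto_nhds.1 (show Tendsto a U (𝓝 l) from hal) _ (by norm_num))
  have hB' : ∀ᶠ A in (𝒱 : Filter (Set ℕ)), A ⊆ {n | K < n ∧ |a n - l| < 1 / 20} :=
    h𝒱 (mem_inf_of_left (eventually_smallSets_subset.2 hB))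
  obtain ⟨A, hA, hAp, hAm⟩ := (hB'.and
    (((hφ3 _).eventually (lt_mem_nhds hp2)).and ((hφ3 _).eventually (lt_mem_nhds hm2)))).exists
  have key : ∀ (w : StrongDual ℝ X) (σ : ℝ), ‖F A + σ • w‖ ≤ 21 / 20 →
      ‖F A + (-σ) • w‖ ≤ 21 / 20 → |σ * H w| ≤ 3 / 20 := fun w σ h1 h2 => by
    have h3 : ∀ (G : StrongDual ℝ (StrongDual ℝ X)) (v : StrongDual ℝ X), ‖G‖ ≤ 1 →
        ‖v‖ ≤ 21 / 20 → G v ≤ 21 / 20 := fun G v hG hv =>
      (le_abs_self _).trans ((G.le_opNorm v).trans (by nlinarith [norm_nonneg v]))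
    have h4 := h3 _ _ hp1 h1
    have h5 := h3 _ _ hp1 h2
    have h6 := h3 _ _ hm1 h1
    have h7 := h3 _ _ hm1 h2
    simp only [map_add, map_smul, smul_eq_mul, add_apply, sub_apply] at h4 h5 h6 h7 hAp hAm
    rw [abs_le]
    constructor <;> linarith
  let g' : StrongDual ℝ X :=
    (g.comp (ContinuousLinearMap.fst ℝ l1 c0)).comp e.symm.toContinuousLinearMap
  let s' : StrongDual ℝ X :=
    (s.comp (ContinuousLinearMap.snd ℝ l1 c0)).comp e.symm.toContinuousLinearMap
  have hg' : ∀ z, HasSum (fun n => a n * (e.symm z).1 n) (g' z) := fun z => repr g _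
  have hl' := abs_le.1 (show |l| ≤ 1 from abs_le.2 hl)
  have k1 : ∀ σ : ℝ, |σ| = 1 / 2 → ‖F A + σ • (g' - l • F Set.univ)‖ ≤ 21 / 20 := fun σ hσ =>
    bd _ (fun n => (if n ∈ A then 1 else 0) + σ * (a n - l)) _ (by norm_num) (fun n => by
      refine (abs_add_le _ _).trans ?_
      rw [abs_mul, hσ]
      split_ifs with h
      · have := (hA h).2
        rw [abs_one]; linarith
      · have := abs_sub (a n) l
        rw [abs_zero]; linarith [ha n, abs_le.2 hl']) fun z => by
      have h1 := (hF A z).add (((hg' z).sub ((hF Set.univ z).mul_left l)).mul_left σ)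
      exact h1.congr_fun fun n => by rw [if_pos (Set.mem_univ n)]; ring
  have k2 : ∀ σ : ℝ, |σ| = 1 → ‖F A + σ • (F Set.univ - F A)‖ ≤ 21 / 20 := fun σ hσ =>
    bd _ (fun n => (if n ∈ A then 1 else 0) + σ * (1 - if n ∈ A then 1 else 0)) _ (by norm_num)
      (fun n => by
        split_ifs
        · norm_num
        · norm_num [hσ]) fun z => by
      have h1 := (hF A z).add (((hF Set.univ z).sub (hF A z)).mul_left σ)
      exact h1.congr_fun fun n => by rw [if_pos (Set.mem_univ n)]; ring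
  have k3 : ∀ σ : ℝ, |σ| = 1 → ‖F A + σ • s'‖ ≤ 21 / 20 := fun σ hσ =>
    ContinuousLinearMap.opNorm_le_bound _ (by norm_num) fun z => by
      obtain ⟨⟨h, t⟩, rfl⟩ := e.surjective z
      have h1 : |F A (e (h, t))| ≤ ρ K h := by
        refine (hF A _).norm_le_of_bounded (ρ_sum K h).hasSum fun n => ?_
        rw [e.symm_apply_apply]
        by_cases hn : n ∈ A
        · rw [if_pos hn, if_pos (hA hn).1, one_mul]; rfl
        · rw [if_neg hn, zero_mul, norm_zero]
          split_ifs <;> simp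
      have h2 : s' (e (h, t)) = s (cut K t) + f (e (0, t - cut K t)) := by
        show s (e.symm (e (h, t))).2 = s (cut K t) + s (t - cut K t)
        rw [e.symm_apply_apply, map_sub, add_sub_cancel]
      have h3 : ‖cut K t‖ ≤ N (h, t) := norm_le_of _ ((norm_nonneg _).trans (fst_le _)) fun k => by
        show |if k ≤ K then 0 else t k| ≤ _
        split_ifs
        · rw [abs_zero]; exact (norm_nonneg _).trans (fst_le _)
        · exact (abs_le_norm t k).trans (snd_le (h, t))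
      have h4 := hK (cut K t) fun k hk => if_pos hk
      have h5 : 0 ≤ N (h, t) - ρ K h := by linarith [le_N (h, t) K, abs_nonneg (t K)]
      have h6 : N (0, t - cut K t) ≤ N (h, t) - ρ K h := N_le (by simpa using h5) fun k => by
        have h7 := ρ_le k (0 : l1)
        rw [norm_zero] at h7
        have h8 : |t k - if k ≤ K then 0 else t k| ≤ N (h, t) - ρ K h := by
          split_ifs with hk
          · rw [sub_zero]; linarith [le_N (h, t) k, ρ_anti hk h]
          · rw [sub_self, abs_zero]; exact h5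
        exact (add_le_add h8 h7).trans_eq (add_zero _)
      have h7 := (hfe _).trans h6
      rw [add_apply, smul_apply, h2, he, smul_eq_mul, Real.norm_eq_abs]
      refine (abs_add_le _ _).trans ?_
      rw [abs_mul, hσ, one_mul]
      linarith [abs_add_le (s (cut K t)) (f (e (0, t - cut K t)))]
  have m1 := key _ (1 / 2) (k1 _ (by norm_num)) (k1 _ (by norm_num))
  have m2 := key _ 1 (k2 _ (by norm_num)) (k2 _ (by norm_num))
  have m3 := key _ 1 (k3 _ (by norm_num)) (k3 _ (by norm_num))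
  have m4 : |H (F A)| ≤ 1 / 20 := by
    have h1 := (le_abs_self _).trans (((x 0 + H).le_opNorm (F A)).trans
      (mul_le_one₀ hp1 (norm_nonneg _) (hF1 A)))
    have h2 := (le_abs_self _).trans (((x 0 - H).le_opNorm (F A)).trans
      (mul_le_one₀ hm1 (norm_nonneg _) (hF1 A)))
    simp only [add_apply, sub_apply] at h1 h2 hAp hAm
    rw [abs_le]
    constructor <;> linarith
  have hfs : f = g' + s' := by
    ext z
    obtain ⟨⟨h, t⟩, rfl⟩ := e.surjective z
    show _ = f (e ((e.symm (e (h, t))).1, 0)) + f (e (0, (e.symm (e (h, t))).2))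
    rw [e.symm_apply_apply, ← map_add, ← map_add]
    simp
  rw [hfs, map_add, Real.norm_eq_abs] at hHf
  simp only [map_smul, map_sub, smul_eq_mul] at m1 m2
  have m5 : |l * H (F Set.univ)| ≤ 4 / 20 := by
    rw [abs_mul]
    have h1 : |H (F Set.univ)| ≤ 4 / 20 := by
      rw [abs_le] at m2 m4 ⊢
      constructor <;> linarith [m2.1, m2.2, m4.1, m4.2]
    nlinarith [abs_le.2 hl', abs_nonneg l, abs_nonneg (H (F Set.univ))]
  rw [abs_le] at m1 m3 m5
  refine absurd hHf (not_lt.2 (abs_le.2 ⟨?_, ?_⟩)) <;>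
    linarith [m1.1, m1.2, m3.1, m3.2, m5.1, m5.2]

/-- A Banach space with the SSD2P whose bidual fails the SSD2P. -/
theorem result : ∃ (X : Type) (_ : NormedAddCommGroup X) (_ : NormedSpace ℝ X)
    (_ : CompleteSpace X), SSD2P X ∧ ¬ SSD2P (StrongDual ℝ (StrongDual ℝ X)) := by
  obtain ⟨X, i1, i2, i3, e, he⟩ := space
  exact ⟨X, i1, i2, i3, has e he, fails e he⟩

end Pool.Agent.Results.MP_a7d15e_an.Example
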